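import Mathlib

/-!
# MP_8ea6c6_co: adjoining the Frobenius number need not preserve greediness
-/

set_option autoImplicit false

namespace Pool.Agent.Results.MP_8ea6c6_co.AdjoinFrobenius

/-- the numerical semigroup generated by `S` -/
def gen (S : Finset ℕ) : Set ℕ := {k | ∃ a : ℕ → ℕ, ∑ s ∈ S, a s * s = k}

/-- the least cost of a representation of `k` -/
noncomputable def minCost (S : Finset ℕ) (k : ℕ) : ℕ :=
  sInf {c | ∃ a : ℕ → ℕ, ∑ s ∈ S, a s * s = k ∧ ∑ s ∈ S, a s = c}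

/-- the largest `q` with `k - q s` in the semigroup generated by `S` -/
noncomputable def greedyDigit (S : Finset ℕ) (s k : ℕ) : ℕ :=
  sSup {q | q * s ≤ k ∧ k - q * s ∈ gen S}

/-- the cost of the greedy representation of `k`, the generators in the list being visited from
left to right -/
noncomputable def greedyCostAux (S : Finset ℕ) : List ℕ → ℕ → ℕ
  | [], _ => 0
  | s :: l, k => greedyDigit S s k + greedyCostAux S l (k - greedyDigit S s k * s)

/-- the cost of the greedy representation of `k`: the generators are visited in decreasing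
order -/
noncomputable def greedyCost (S : Finset ℕ) (k : ℕ) : ℕ :=
  greedyCostAux S (S.sort (· ≥ ·)) k

/-- the set `S` is greedy -/
def IsGreedy (S : Finset ℕ) : Prop := ∀ k ∈ gen S, greedyCost S k = minCost S k

/-- the Frobenius number of the semigroup generated by `S` -/
def IsFrobenius (S : Finset ℕ) (F : ℕ) : Prop := IsGreatest {n | n ∉ gen S} F

lemma digit_eq (S : Finset ℕ) (s k q : ℕ) (h1 : q * s ≤ k) (h2 : k - q * s ∈ gen S)
    (h3 : ∀ q', q < q' → q' * s ≤ k → k - q' * s ∉ gen S) : greedyDigit S s k = q := by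
  have : IsGreatest {q | q * s ≤ k ∧ k - q * s ∈ gen S} q := by
    refine ⟨⟨h1, h2⟩, ?_⟩
    rintro q' ⟨h4, h5⟩
    by_contra hcon
    exact h3 q' (by omega) h4 h5
  exact this.csSup_eq

lemma sort_S : ({4, 6, 9} : Finset ℕ).sort (· ≥ ·) = [9, 6, 4] := by
  have h := (List.toFinset_sort (r := (· ≥ ·)) (l := [9, 6, 4]) (by decide)).2 (by decide)
  rw [← h]
  congr 1
  decide

lemma sort_T : ({11, 4, 6, 9} : Finset ℕ).sort (· ≥ ·) = [11, 9, 6, 4] := by
  have h := (List.toFinset_sort (r := (· ≥ ·)) (l := [11, 9, 6, 4]) (by decide)).2 (by decide)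
  rw [← h]
  congr 1
  decide

lemma sum_S (f : ℕ → ℕ) : ∑ s ∈ ({4, 6, 9} : Finset ℕ), f s = f 4 + f 6 + f 9 := by
  simp [add_assoc]

lemma sum_T (f : ℕ → ℕ) : ∑ s ∈ ({11, 4, 6, 9} : Finset ℕ), f s = f 11 + f 4 + f 6 + f 9 := by
  simp [add_assoc]

/-- coefficients with prescribed values -/
def co (a b c d : ℕ) : ℕ → ℕ := fun s => if s = 4 then a else if s = 6 then b else
  if s = 9 then c else d

lemma mem_S (k : ℕ) : k ∈ gen {4, 6, 9} ↔ ∃ a b c : ℕ, 4 * a + 6 * b + 9 * c = k := by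
  constructor
  · rintro ⟨a, ha⟩
    rw [sum_S] at ha
    exact ⟨a 4, a 6, a 9, by omega⟩
  · rintro ⟨a, b, c, h⟩
    refine ⟨co a b c 0, ?_⟩
    rw [sum_S]
    simp only [co]
    norm_num
    omega

lemma mem_T (k : ℕ) : k ∈ gen {11, 4, 6, 9} ↔
    ∃ a b c d : ℕ, 4 * a + 6 * b + 9 * c + 11 * d = k := by
  constructor
  · rintro ⟨a, ha⟩
    rw [sum_T] at ha
    exact ⟨a 4, a 6, a 9, a 11, by omega⟩
  · rintro ⟨a, b, c, d, h⟩
    refine ⟨co a b c d, ?_⟩
    rw [sum_T]
    simp only [co]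
    norm_num
    omega

lemma reduce {k : ℕ} (hk : k ∈ gen {4, 6, 9}) :
    ∃ a b c : ℕ, a ≤ 2 ∧ b ≤ 2 ∧ 4 * a + 6 * b + 9 * c = k := by
  obtain ⟨a, b, c, h⟩ := (mem_S k).1 hk
  exact ⟨a % 3, (b + 2 * (a / 3)) % 3, c + 2 * ((b + 2 * (a / 3)) / 3), by omega, by omega,
    by omega⟩

lemma greedy_S (a b c : ℕ) (ha : a ≤ 2) (hb : b ≤ 2) :
    greedyCost {4, 6, 9} (4 * a + 6 * b + 9 * c) = a + b + c := by
  have h9 : greedyDigit {4, 6, 9} 9 (4 * a + 6 * b + 9 * c) = c := by
    apply digit_eq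
    · omega
    · exact (mem_S _).2 ⟨a, b, 0, by omega⟩
    · intro q hq hle hmem
      obtain ⟨a', b', c', h⟩ := (mem_S _).1 hmem
      interval_cases a <;> interval_cases b <;> omega
  have h6 : greedyDigit {4, 6, 9} 6 (4 * a + 6 * b) = b := by
    apply digit_eq
    · omega
    · exact (mem_S _).2 ⟨a, 0, 0, by omega⟩
    · intro q hq hle hmem
      obtain ⟨a', b', c', h⟩ := (mem_S _).1 hmem
      interval_cases a <;> interval_cases b <;> omega
  have h4 : greedyDigit {4, 6, 9} 4 (4 * a) = a := by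
    apply digit_eq
    · omega
    · exact (mem_S _).2 ⟨0, 0, 0, by omega⟩
    · intro q hq hle hmem
      omega
  rw [greedyCost, sort_S, greedyCostAux, h9,
    show 4 * a + 6 * b + 9 * c - c * 9 = 4 * a + 6 * b by omega, greedyCostAux, h6,
    show 4 * a + 6 * b - b * 6 = 4 * a by omega, greedyCostAux, h4, greedyCostAux]
  ring

lemma min_S (a b c : ℕ) (ha : a ≤ 2) (hb : b ≤ 2) :
    minCost {4, 6, 9} (4 * a + 6 * b + 9 * c) = a + b + c := by
  have : IsLeast {x | ∃ f : ℕ → ℕ, ∑ s ∈ ({4, 6, 9} : Finset ℕ), f s * s =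
      4 * a + 6 * b + 9 * c ∧ ∑ s ∈ ({4, 6, 9} : Finset ℕ), f s = x} (a + b + c) := by
    constructor
    · refine ⟨co a b c 0, ?_, ?_⟩
      · rw [sum_S]
        simp only [co]
        norm_num
        omega
      · rw [sum_S]
        simp only [co]
        norm_num
    · rintro x ⟨f, h1, h2⟩
      rw [sum_S] at h1 h2
      interval_cases a <;> interval_cases b <;> omega
  exact this.csInf_eq

lemma greedy_T : greedyCost {11, 4, 6, 9} 27 = 4 := by
  have h11 : greedyDigit {11, 4, 6, 9} 11 27 = 1 := by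
    apply digit_eq
    · omega
    · exact (mem_T _).2 ⟨4, 0, 0, 0, by omega⟩
    · intro q hq hle hmem
      obtain ⟨a', b', c', d', h⟩ := (mem_T _).1 hmem
      obtain rfl : q = 2 := by omega
      have hb : b' = 0 := by omega
      have hc : c' = 0 := by omega
      have hd : d' = 0 := by omega
      omega
  have h9 : greedyDigit {11, 4, 6, 9} 9 16 = 0 := by
    apply digit_eq
    · omega
    · exact (mem_T _).2 ⟨4, 0, 0, 0, by omega⟩
    · intro q hq hle hmem
      obtain ⟨a', b', c', d', h⟩ := (mem_T _).1 hmem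
      obtain rfl : q = 1 := by omega
      have hb : b' ≤ 1 := by omega
      have hc : c' = 0 := by omega
      have hd : d' = 0 := by omega
      interval_cases b' <;> omega
  have h6 : greedyDigit {11, 4, 6, 9} 6 16 = 2 := by
    apply digit_eq
    · omega
    · exact (mem_T _).2 ⟨1, 0, 0, 0, by omega⟩
    · intro q hq hle hmem
      omega
  have h4 : greedyDigit {11, 4, 6, 9} 4 4 = 1 := by
    apply digit_eq
    · omega
    · exact (mem_T _).2 ⟨0, 0, 0, 0, by omega⟩
    · intro q hq hle hmem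
      omega
  rw [greedyCost, sort_T, greedyCostAux, h11, show 27 - 1 * 11 = 16 by norm_num, greedyCostAux,
    h9, show 16 - 0 * 9 = 16 by norm_num, greedyCostAux, h6, show 16 - 2 * 6 = 4 by norm_num,
    greedyCostAux, h4, greedyCostAux]

lemma min_T : minCost {11, 4, 6, 9} 27 ≤ 3 := by
  apply Nat.sInf_le
  refine ⟨co 0 0 3 0, ?_, ?_⟩
  · rw [sum_T]
    simp [co]
  · rw [sum_T]
    simp [co]

/-- **Adjoining the Frobenius number need not preserve greediness.** -/
theorem result : ∃ (S : Finset ℕ) (F : ℕ), (∀ s ∈ S, 0 < s) ∧ S.gcd id = 1 ∧ 1 ∉ S ∧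
    IsFrobenius S F ∧ IsGreedy S ∧ ¬ IsGreedy (insert F S) := by
  refine ⟨{4, 6, 9}, 11, by decide, by decide, by decide, ⟨?_, ?_⟩, ?_, ?_⟩
  · intro h
    obtain ⟨a, b, c, h⟩ := (mem_S _).1 h
    omega
  · intro n hn
    by_contra hcon
    apply hn
    rw [mem_S]
    rcases (show n % 4 = 0 ∨ n % 4 = 1 ∨ n % 4 = 2 ∨ n % 4 = 3 by omega) with h | h | h | h
    · exact ⟨n / 4, 0, 0, by omega⟩
    · exact ⟨(n - 9) / 4, 0, 1, by omega⟩
    · exact ⟨(n - 6) / 4, 1, 0, by omega⟩
    · exact ⟨(n - 15) / 4, 1, 1, by omega⟩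
  · intro k hk
    obtain ⟨a, b, c, ha, hb, rfl⟩ := reduce hk
    rw [greedy_S a b c ha hb, min_S a b c ha hb]
  · intro h
    have h1 := h 27 ((mem_T _).2 ⟨0, 0, 3, 0, by omega⟩)
    rw [greedy_T] at h1
    have h2 := min_T
    omega

end Pool.Agent.Results.MP_8ea6c6_co.AdjoinFrobenius
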